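import Mathlib

/-!
# A criterion for bijectivity up to the boundary

`bijOn_top`: a continuous map `f : A → B`, open and locally injective at the points of `A`,
proper as a map from `A` to the open preconnected set `B`, such that one point of `B` has exactly one
preimage, is a bijection of `A` onto `B`.

`bijOn_closed`: `X` closed, `A ⊆ X` open and dense in `X`, `B` open and convex, `Y = closure B`,
`f` continuous on `X`, `f` maps `A` to `B` and `X \ A` outside `B`, `f` has at the points of `A` a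
strict derivative which is invertible with `‖f'⁻¹‖ ≤ C`, preimages of compact subsets of `B` are
compact, one point of `B` has exactly one preimage.  Then `f` is a bijection of `X` onto `Y` and
`‖x - x'‖ ≤ C ‖f x - f x'‖` on `X`.
-/

namespace Pool.Agent.H85.PR

open Set Filter Topology

theorem bijOn_top {X Y : Type*} [TopologicalSpace X] [TopologicalSpace Y] [T2Space X] [T2Space Y]
    [LocallyCompactSpace Y] {A : Set X} {B : Set Y} (hB : IsOpen B) (hBc : IsPreconnected B)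
    {f : X → Y} (hf : ContinuousOn f A) (hm : MapsTo f A B)
    (hopen : ∀ x ∈ A, ∀ U ∈ 𝓝 x, f '' (U ∩ A) ∈ 𝓝 (f x))
    (hinj : ∀ x ∈ A, ∃ U ∈ 𝓝 x, InjOn f (U ∩ A))
    (hprop : ∀ K ⊆ B, IsCompact K → IsCompact (A ∩ f ⁻¹' K))
    (h0 : ∃ y0 ∈ B, ∃! x, x ∈ A ∧ f x = y0) : BijOn f A B := by
  obtain ⟨y0, hy0, x0, ⟨hx0, hfx0⟩, huniq⟩ := h0
  -- compact images
  have hcl : ∀ C : Set X, IsCompact C → C ⊆ A → IsClosed (f '' C) := fun C hC hCA =>
    (hC.image_of_continuousOn (hf.mono hCA)).isClosed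
  -- surjectivity
  have hSopen : IsOpen (f '' A) := by
    rw [isOpen_iff_mem_nhds]
    rintro _ ⟨x, hx, rfl⟩
    have := hopen x hx univ univ_mem
    rwa [univ_inter] at this
  have hsurj : B ⊆ f '' A := by
    refine hBc.subset_of_closure_inter_subset hSopen ⟨y0, hy0, x0, hx0, hfx0⟩ ?_
    rintro y ⟨hyS, hyB⟩
    obtain ⟨K, hK, hyK, hKB⟩ := exists_compact_subset hB hyB
    have hC := hprop K hKB hK
    have h1 : y ∈ closure (f '' (A ∩ f ⁻¹' K)) := by
      rw [mem_closure_iff_nhds] at hyS ⊢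
      intro V hV
      obtain ⟨z, ⟨hzV, hzK⟩, x, hx, rfl⟩ := hyS (V ∩ interior K)
        (inter_mem hV (isOpen_interior.mem_nhds hyK))
      exact ⟨f x, hzV, x, ⟨hx, show f x ∈ K from interior_subset hzK⟩, rfl⟩
    rw [(hcl _ hC inter_subset_left).closure_eq] at h1
    exact image_mono inter_subset_left h1
  refine ⟨hm, ?_, hsurj⟩
  -- injectivity
  by_contra hni
  let M : Set Y := {y | ∃ x ∈ A, ∃ x' ∈ A, x ≠ x' ∧ f x = y ∧ f x' = y}
  have hMopen : IsOpen M := by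
    rw [isOpen_iff_mem_nhds]
    rintro y ⟨x, hx, x', hx', hne, hxy, hxy'⟩
    obtain ⟨U, U', hU, hU', hxU, hxU', hdis⟩ := t2_separation hne
    have h1 := hopen x hx U (hU.mem_nhds hxU)
    have h2 := hopen x' hx' U' (hU'.mem_nhds hxU')
    rw [hxy] at h1
    rw [hxy'] at h2
    filter_upwards [h1, h2]
    rintro _ ⟨a, ⟨haU, haA⟩, rfl⟩ ⟨b, ⟨hbU, hbA⟩, hba⟩
    refine ⟨a, haA, b, hbA, ?_, rfl, hba⟩
    rintro rfl
    exact disjoint_left.1 hdis haU hbU
  have hMne : (B ∩ M).Nonempty := by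
    unfold InjOn at hni
    push Not at hni
    obtain ⟨x, hx, x', hx', hfx, hne⟩ := hni
    exact ⟨f x, hm hx, x, hx, x', hx', hne, rfl, hfx.symm⟩
  have hBM : B ⊆ M := by
    refine hBc.subset_of_closure_inter_subset hMopen hMne ?_
    rintro y ⟨hyM, hyB⟩
    by_contra hyn
    obtain ⟨x, hx, hxy⟩ := hsurj hyB
    have hone : ∀ x' ∈ A, f x' = y → x' = x := by
      intro x' hx' hfx'
      by_contra hne
      exact hyn ⟨x', hx', x, hx, hne, hfx', hxy⟩
    obtain ⟨K, hK, hyK, hKB⟩ := exists_compact_subset hB hyB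
    have hC := hprop K hKB hK
    obtain ⟨U, hU, hUinj⟩ := hinj x hx
    have hD : IsCompact ((A ∩ f ⁻¹' K) \ interior U) := hC.diff isOpen_interior
    have hDc : IsClosed (f '' ((A ∩ f ⁻¹' K) \ interior U)) :=
      hcl _ hD (sdiff_subset.trans inter_subset_left)
    have hyD : y ∉ f '' ((A ∩ f ⁻¹' K) \ interior U) := by
      rintro ⟨x', ⟨⟨hx'A, -⟩, hx'U⟩, hfx'⟩
      rw [hone x' hx'A hfx'] at hx'U
      exact hx'U (mem_interior_iff_mem_nhds.2 hU)
    rw [mem_closure_iff_nhds] at hyM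
    obtain ⟨z, ⟨hzK, hzD⟩, a, haA, b, hbA, hab, hfa, hfb⟩ := hyM
      (interior K ∩ (f '' ((A ∩ f ⁻¹' K) \ interior U))ᶜ)
      (inter_mem (isOpen_interior.mem_nhds hyK) (hDc.isOpen_compl.mem_nhds hyD))
    have hin : ∀ c ∈ A, f c = z → c ∈ U := by
      intro c hc hfc
      by_contra hcU
      refine hzD ⟨c, ⟨⟨hc, ?_⟩, fun h => hcU (interior_subset h)⟩, hfc⟩
      rw [mem_preimage, hfc]
      exact interior_subset hzK
    exact hab (hUinj ⟨hin a haA hfa, haA⟩ ⟨hin b hbA hfb, hbA⟩ (hfa.trans hfb.symm))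
  obtain ⟨x, hx, x', hx', hne, hxy, hxy'⟩ := hBM hy0
  exact hne ((huniq x ⟨hx, hxy⟩).trans (huniq x' ⟨hx', hxy'⟩).symm)

section

variable {E F : Type*} [NormedAddCommGroup E] [NormedSpace ℝ E] [CompleteSpace E]
  [NormedAddCommGroup F] [NormedSpace ℝ F] [LocallyCompactSpace F]

/-- the version for open sets with derivatives -/
theorem bijOn_open {A : Set E} {B : Set F} (hA : IsOpen A) (hB : IsOpen B)
    (hBc : IsPreconnected B) {f : E → F} (hm : MapsTo f A B)
    (hder : ∀ x ∈ A, ∃ f' : E ≃L[ℝ] F, HasStrictFDerivAt f (f' : E →L[ℝ] F) x)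
    (hprop : ∀ K ⊆ B, IsCompact K → IsCompact (A ∩ f ⁻¹' K))
    (h0 : ∃ y0 ∈ B, ∃! x, x ∈ A ∧ f x = y0) : BijOn f A B := by
  refine bijOn_top hB hBc ?_ hm ?_ ?_ hprop h0
  · intro x hx
    obtain ⟨f', hf'⟩ := hder x hx
    exact hf'.continuousAt.continuousWithinAt
  · intro x hx U hU
    obtain ⟨f', hf'⟩ := hder x hx
    rw [← hf'.map_nhds_eq_of_equiv]
    exact image_mem_map (inter_mem hU (hA.mem_nhds hx))
  · intro x hx
    obtain ⟨f', hf'⟩ := hder x hx
    refine ⟨(hf'.toOpenPartialHomeomorph f).source,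
      (hf'.toOpenPartialHomeomorph f).open_source.mem_nhds
        hf'.mem_toOpenPartialHomeomorph_source, ?_⟩
    exact (hf'.toOpenPartialHomeomorph f).injOn.mono inter_subset_left

/-- an inverse of a bijection with bounded inverse derivatives is Lipschitz on convex sets -/
theorem antilip_open {A : Set E} {B : Set F} (hA : IsOpen A) (hBconv : Convex ℝ B)
    {f : E → F} (hbij : BijOn f A B) {C : ℝ}
    (hder : ∀ x ∈ A, ∃ f' : E ≃L[ℝ] F, HasStrictFDerivAt f (f' : E →L[ℝ] F) x ∧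
      ‖(f'.symm : F →L[ℝ] E)‖ ≤ C) {x x' : E} (hx : x ∈ A) (hx' : x' ∈ A) :
    ‖x - x'‖ ≤ C * ‖f x - f x'‖ := by
  classical
  have hex : ∀ y ∈ B, ∃ x ∈ A, f x = y := fun y hy => hbij.surjOn hy
  choose! g hgA hfg using hex
  have hgf : ∀ x ∈ A, g (f x) = x := fun x hx =>
    hbij.injOn (hgA _ (hbij.mapsTo hx)) hx (hfg _ (hbij.mapsTo hx))
  have hgder : ∀ y ∈ B, ∃ g' : F →L[ℝ] E, HasFDerivAt g g' y ∧ ‖g'‖ ≤ C := by
    intro y hy
    obtain ⟨f', hf', hC⟩ := hder (g y) (hgA y hy)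
    refine ⟨(f'.symm : F →L[ℝ] E), ?_, hC⟩
    have h1 : HasStrictFDerivAt (hf'.localInverse f f' (g y)) (f'.symm : F →L[ℝ] E) (f (g y)) :=
      hf'.to_localInverse
    have h2 : ∀ᶠ z in 𝓝 (f (g y)), hf'.localInverse f f' (g y) z ∈ A := by
      have h3 : Tendsto (hf'.localInverse f f' (g y)) (𝓝 (f (g y))) (𝓝 (g y)) :=
        hf'.localInverse_tendsto
      exact h3.eventually (hA.mem_nhds (hgA y hy))
    have h3 : ∀ᶠ z in 𝓝 (f (g y)), f (hf'.localInverse f f' (g y) z) = z :=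
      hf'.eventually_right_inverse
    have h4 : g =ᶠ[𝓝 (f (g y))] hf'.localInverse f f' (g y) := by
      filter_upwards [h2, h3] with z hz2 hz3
      conv_lhs => rw [← hz3]
      exact hgf _ hz2
    have h5 := h1.hasFDerivAt.congr_of_eventuallyEq h4
    rwa [hfg y hy] at h5
  choose! g' hg' hg'C using hgder
  have h1 := Convex.norm_image_sub_le_of_norm_hasFDerivWithin_le (f := g) (f' := g') (s := B)
    (C := C) (fun y hy => (hg' y hy).hasFDerivWithinAt) hg'C hBconv (hbij.mapsTo hx')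
    (hbij.mapsTo hx)
  rwa [hgf x hx, hgf x' hx'] at h1

/-- the version up to the boundary -/
theorem bijOn_closed {X A : Set E} {Y B : Set F} (hX : IsClosed X) (hA : IsOpen A) (hAX : A ⊆ X)
    (hXA : X ⊆ closure A) (hB : IsOpen B) (hBconv : Convex ℝ B) (hBY : closure B = Y)
    {f : E → F} (hf : ContinuousOn f X) (hmA : MapsTo f A B) (hmF : ∀ x ∈ X, x ∉ A → f x ∉ B)
    {C : ℝ} (hder : ∀ x ∈ A, ∃ f' : E ≃L[ℝ] F, HasStrictFDerivAt f (f' : E →L[ℝ] F) x ∧
      ‖(f'.symm : F →L[ℝ] E)‖ ≤ C)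
    (hprop : ∀ K ⊆ B, IsCompact K → IsCompact (X ∩ f ⁻¹' K))
    (h0 : ∃ y0 ∈ B, ∃! x, x ∈ A ∧ f x = y0) :
    BijOn f X Y ∧ BijOn f A B ∧ ∀ x ∈ X, ∀ x' ∈ X, ‖x - x'‖ ≤ C * ‖f x - f x'‖ := by
  have hbij : BijOn f A B := by
    refine bijOn_open hA hB hBconv.isPreconnected hmA
      (fun x hx => (hder x hx).imp fun f' h => h.1) ?_ h0
    intro K hKB hK
    have h1 : A ∩ f ⁻¹' K = X ∩ f ⁻¹' K := by
      ext x
      constructor
      · rintro ⟨h1, h2⟩
        exact ⟨hAX h1, h2⟩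
      · rintro ⟨h1, h2⟩
        refine ⟨?_, h2⟩
        by_contra h3
        exact hmF x h1 h3 (hKB h2)
    rw [h1]
    exact hprop K hKB hK
  -- approximating sequences
  have hseq : ∀ x ∈ X, ∃ u : ℕ → E, (∀ n, u n ∈ A) ∧ Tendsto u atTop (𝓝 x) ∧
      Tendsto (fun n => f (u n)) atTop (𝓝 (f x)) := by
    intro x hx
    obtain ⟨u, huA, hu⟩ := mem_closure_iff_seq_limit.1 (hXA hx)
    refine ⟨u, huA, hu, ?_⟩
    have h1 : Tendsto u atTop (𝓝[X] x) :=
      tendsto_nhdsWithin_iff.2 ⟨hu, Eventually.of_forall fun n => hAX (huA n)⟩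
    exact (hf x hx).tendsto.comp h1
  have hanti : ∀ x ∈ X, ∀ x' ∈ X, ‖x - x'‖ ≤ C * ‖f x - f x'‖ := by
    intro x hx x' hx'
    obtain ⟨u, huA, hu, hfu⟩ := hseq x hx
    obtain ⟨v, hvA, hv, hfv⟩ := hseq x' hx'
    exact le_of_tendsto_of_tendsto' (hu.sub hv).norm ((hfu.sub hfv).norm.const_mul C)
      fun n => antilip_open hA hBconv hbij hder (huA n) (hvA n)
  refine ⟨⟨?_, ?_, ?_⟩, hbij, hanti⟩
  · intro x hx
    obtain ⟨u, huA, hu, hfu⟩ := hseq x hx
    rw [← hBY]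
    exact mem_closure_of_tendsto hfu (Eventually.of_forall fun n => hmA (huA n))
  · intro x hx x' hx' hxx'
    have h1 := hanti x hx x' hx'
    rw [hxx', sub_self, norm_zero, mul_zero] at h1
    exact sub_eq_zero.1 (norm_le_zero_iff.1 h1)
  · intro y hy
    rw [← hBY] at hy
    obtain ⟨w, hwB, hw⟩ := mem_closure_iff_seq_limit.1 hy
    choose u huA hfu using fun n => hbij.surjOn (hwB n)
    have hcau : CauchySeq u := by
      have hwc : CauchySeq w := hw.cauchySeq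
      rw [Metric.cauchySeq_iff] at hwc ⊢
      intro ε hε
      obtain ⟨N, hN⟩ := hwc (ε / (|C| + 1)) (by positivity)
      refine ⟨N, fun m hm n hn => ?_⟩
      have h1 := hN m hm n hn
      have h2 := antilip_open hA hBconv hbij hder (huA m) (huA n)
      rw [hfu m, hfu n, ← dist_eq_norm, ← dist_eq_norm] at h2
      have h3 : C * dist (w m) (w n) ≤ (|C| + 1) * dist (w m) (w n) :=
        mul_le_mul_of_nonneg_right (by linarith [le_abs_self C]) dist_nonneg
      have h4 : (|C| + 1) * dist (w m) (w n) < (|C| + 1) * (ε / (|C| + 1)) :=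
        mul_lt_mul_of_pos_left h1 (by positivity)
      have h5 : (|C| + 1) * (ε / (|C| + 1)) = ε := by field_simp
      linarith
    obtain ⟨x, hx⟩ := cauchySeq_tendsto_of_complete hcau
    have hxX : x ∈ X := hX.mem_of_tendsto hx (Eventually.of_forall fun n => hAX (huA n))
    refine ⟨x, hxX, ?_⟩
    have h1 : Tendsto u atTop (𝓝[X] x) :=
      tendsto_nhdsWithin_iff.2 ⟨hx, Eventually.of_forall fun n => hAX (huA n)⟩
    have h2 : Tendsto (fun n => f (u n)) atTop (𝓝 (f x)) := (hf x hxX).tendsto.comp h1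
    have h3 : (fun n => f (u n)) = w := funext hfu
    rw [h3] at h2
    exact tendsto_nhds_unique h2 hw

/-- the version for compact sets: properness is automatic -/
theorem bijOn_compact {X A : Set E} {Y B : Set F} (hX : IsCompact X) (hA : IsOpen A)
    (hAX : A ⊆ X) (hXA : X ⊆ closure A) (hB : IsOpen B) (hBconv : Convex ℝ B)
    (hBY : closure B = Y) {f : E → F} (hf : ContinuousOn f X) (hmA : MapsTo f A B)
    (hmF : ∀ x ∈ X, x ∉ A → f x ∉ B) {C : ℝ}
    (hder : ∀ x ∈ A, ∃ f' : E ≃L[ℝ] F, HasStrictFDerivAt f (f' : E →L[ℝ] F) x ∧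
      ‖(f'.symm : F →L[ℝ] E)‖ ≤ C)
    (h0 : ∃ y0 ∈ B, ∃! x, x ∈ A ∧ f x = y0) :
    BijOn f X Y ∧ BijOn f A B ∧ ∀ x ∈ X, ∀ x' ∈ X, ‖x - x'‖ ≤ C * ‖f x - f x'‖ := by
  refine bijOn_closed hX.isClosed hA hAX hXA hB hBconv hBY hf hmA hmF hder ?_ h0
  intro K _ hK
  exact hX.of_isClosed_subset (hf.preimage_isClosed_of_isClosed hX.isClosed hK.isClosed)
    inter_subset_left

end

end Pool.Agent.H85.PR
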